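import Mathlib
import Pool.Agent.K4H66.RV.A10
set_option autoImplicit false

/-!
# The extension conjecture for the paraboloid in `ℝ³` for densities of bounded complexity

`ext U f ξ = ∫_U e^{-i Φ(x)·ξ} f(x) dx`, `Φ(x) = (x_1, x_2, x_1² + x_2²)`. The conjecture is
`‖ext U f‖_{L^q(ℝ³)} ≤ C ‖f‖_{L^q(U)}` for all `q > 3`.

The theorem below proves, in the full range `q > 3`, an inequality of this kind for all densities

`f(x_1, x_2) = ⟨h(x_1), k(x_2)⟩ · G_1(x_1, x_2) ⋯ G_m(x_1, x_2)`,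

where `h, k : ℝ → ℂ^N` are arbitrary measurable functions (`N` arbitrary, the constant does not
depend on `N`) and every `G_j` is a chain function: `G_j(x_1, x_2) = H(φ(x_1), x_2)` or
`H(φ(x_2), x_1)`, where `φ` is an arbitrary measurable function and `H(·, y)` has
2-variation at most one, uniformly in `y`. The bound is `C(q, m) ‖h‖_{L^q(ℝ)} ‖k‖_{L^q(ℝ)}`.

No regularity of `f` in any direction is assumed. Examples:
* `m = 0`, `N = 1`: `f(x) = h(x_1) k(x_2)`, where the bound is `C ‖f‖_{L^q}`;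
* `m = 0`: kernels `⟨h(x_1), k(x_2)⟩` (functions with a Hilbert space factorization);
* `m = 1`: `h(x_1) k(x_2) 1_{a(x_1) < b(x_2)}` with arbitrary measurable `h, k, a, b`;
  `h(x_1) k(x_2) P(a(x_1) + b(x_2))` with `P` of bounded 2-variation;
  all `g` with `g(·, x_2)` of 2-variation at most one for every `x_2` (monotone functions of `x_1`,
  indicators of convex sets, 1/2-Hölder functions of `x_1`), times any `h(x_1)`;
* `m` arbitrary: products of `m` such functions.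
-/

namespace Pool.Agent.Results.MP_5ab805_an.ChainDensities

open MeasureTheory Set Metric Complex
open scoped ENNReal NNReal RealInnerProductSpace

abbrev E (n : ℕ) := EuclideanSpace ℝ (Fin n)

/-- the paraboloid `x ↦ (x_1, x_2, x_1^2 + x_2^2)` -/
noncomputable def Phi (x : E 2) : E 3 := !₂[x 0, x 1, x 0 ^ 2 + x 1 ^ 2]

/-- the Fourier extension operator of the paraboloid over `U` -/
noncomputable def ext (U : Set (E 2)) (f : E 2 → ℂ) (ξ : E 3) : ℂ :=
  ∫ x in U, Complex.exp (-((⟪Phi x, ξ⟫ : ℝ) : ℂ) * I) * f x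

/-- `u` has 2-variation (size included) at most one: for all `t_0 ≤ t_1 ≤ ⋯ ≤ t_n`,
`|u(t_0)|² + ∑_i |u(t_{i+1}) - u(t_i)|² ≤ 1` -/
def TwoVariationLeOne (u : ℝ → ℂ) : Prop := ∀ (n : ℕ) (t : ℕ → ℝ), Monotone t →
  ‖u (t 0)‖ ^ 2 + ∑ i ∈ Finset.range n, ‖u (t (i + 1)) - u (t i)‖ ^ 2 ≤ 1

/-- `G` is a chain function: `G x y = H (φ x) y` with `φ` an arbitrary measurable function and
`H` measurable with `H(·, y)` of 2-variation at most one for every `y` -/
def IsChainFunction (G : ℝ → ℝ → ℂ) : Prop :=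
  ∃ (φ : ℝ → ℝ) (H : ℝ → ℝ → ℂ), Measurable φ ∧ Measurable (Function.uncurry H) ∧
    (∀ y, TwoVariationLeOne fun s => H s y) ∧ ∀ x y, G x y = H (φ x) y

/-- **Theorem.** For all `q > 3` and `m` there is `C` such that
`‖ext U f‖_{L^q(ℝ³)} ≤ C ‖h‖_{L^q(ℝ)} ‖k‖_{L^q(ℝ)}` for all measurable `h, k : ℝ → ℂ^N` (any `N`),
all measurable `U` in the ball of radius `1/2` and all `f` on `U` which, extended by zero, have the
form `f(x) = ⟨h(x_1), k(x_2)⟩ ∏_{j ≤ m} G_j(x_1, x_2)` with chain functions `G_j` (in one of the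
two orders of the variables). -/
theorem result : ∀ q : ℝ, 3 < q → ∀ m : ℕ, ∃ C : ℝ≥0, ∀ (N : ℕ)
    (h k : ℝ → EuclideanSpace ℂ (Fin N)) (G : Fin m → ℝ → ℝ → ℂ) (U : Set (E 2)) (f : E 2 → ℂ),
    Measurable h → Measurable k →
    (∀ j, IsChainFunction (G j) ∨ IsChainFunction fun x y => G j y x) →
    MeasurableSet U → U ⊆ ball 0 (1 / 2) →
    (∀ x ∈ U, f x = (∑ i, h (x 0) i * k (x 1) i) * ∏ j, G j (x 0) (x 1)) →
    (∀ x ∉ U, (∑ i, h (x 0) i * k (x 1) i) * ∏ j, G j (x 0) (x 1) = 0) →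
    eLpNorm (ext U f) (ENNReal.ofReal q) volume ≤
      C * eLpNorm h (ENNReal.ofReal q) volume * eLpNorm k (ENNReal.ofReal q) volume := by
  intro q hq m
  obtain ⟨K, hK⟩ := Pool.Agent.K4H66.RV.final q hq m
  refine ⟨K, ?_⟩
  intro N h k G U f hh hk hG hU hUb hfU hfn
  have hch : ∀ G' : ℝ → ℝ → ℂ, IsChainFunction G' →
      Pool.Agent.K4H66.RV.IsChain fun p => G' p.1 p.2 := by
    rintro G' ⟨φ, H, h1, h2, h3, h4⟩
    exact ⟨φ, H, h1, h2, h3, fun p => h4 p.1 p.2⟩
  exact hK N h k G U f hh hk (fun j => (hG j).imp (hch _) (hch _)) hU hUb hfU hfn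

end Pool.Agent.Results.MP_5ab805_an.ChainDensities
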