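import Mathlib
import Pool.Agent.K4H66.DF.B13
set_option autoImplicit false

/-!
# The extension conjecture for the paraboloid in `ℝ³` along dilation flows

`ext U f ξ = ∫_U e^{-i Φ(x)·ξ} f(x) dx`, `Φ(x) = (x_1, x_2, x_1² + x_2²)`. The conjecture is
`‖ext U f‖_{L^q(ℝ³)} ≤ C ‖f‖_{L^q(U)}` for all `q > 3`.

Fix a centre `c`, an orthonormal frame `v_0, v_1` and two different rates `l_0, l_1`, and let
`D_s(c + a v_0 + b v_1) = c + e^{l_0 s} a v_0 + e^{l_1 s} b v_1` be the corresponding flow of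
dilations of the plane (its orbits are the curves `|b|^{l_0} = const · |a|^{l_1}`: hyperbolas for
`l_0 + l_1 = 0`, parabolas for `l_1 = 2 l_0`, parallel lines if one rate is `0`).
The theorem below has four parts.

* **A.** For every `f ∈ L^q`, the inequality holds for `f ∘ D_s` on average over `s ∈ [0, 1]`, for
  every `q > 3`; more generally on average over every `α`-dimensional measure `μ` on `[0, 1]`
  with `α > (4 - q) / (q - 2)`.
* **B.** For every `f ∈ L^q(U)`, `3 < q ≤ 4`, the set of all `s ∈ ℝ` for which `E(f ∘ D_s)` fails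
  to be in `L^q(ℝ³)` has Hausdorff dimension at most `(4 - q) / (q - 2) < 1`.
* **C.** The inequality holds for all `q > 3` for all `f` with fractional regularity of order
  `σ > 2/q - 1/2` in `L^q` along the orbits of one such flow. No regularity across the orbits is
  assumed.
* **D.** The inequality holds for all `q > 3` for all `f` with fractional regularity of order
  `σ > 2/q - 1/2` in `L^q` in one direction, uniformly in the direction.
  The threshold is below `1/6` for all `q > 3`.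

In C and D the function `f` is extended by zero outside of `U`.
-/

namespace Pool.Agent.Results.MP_5ab805_an.DilationFlows

open MeasureTheory Set Metric Complex
open scoped ENNReal NNReal RealInnerProductSpace

abbrev E (n : ℕ) := EuclideanSpace ℝ (Fin n)

/-- the paraboloid `x ↦ (x_1, x_2, x_1^2 + x_2^2)` -/
noncomputable def Phi (x : E 2) : E 3 := !₂[x 0, x 1, x 0 ^ 2 + x 1 ^ 2]

/-- the Fourier extension operator of the paraboloid over `U` -/
noncomputable def ext (U : Set (E 2)) (f : E 2 → ℂ) (ξ : E 3) : ℂ :=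
  ∫ x in U, Complex.exp (-((⟪Phi x, ξ⟫ : ℝ) : ℂ) * I) * f x

/-- the flow of dilations with centre `c`, frame `v` and rates `l` -/
noncomputable def flow (v : OrthonormalBasis (Fin 2) ℝ (E 2)) (c : E 2) (l : Fin 2 → ℝ) (s : ℝ)
    (x : E 2) : E 2 :=
  c + ∑ i, (Real.exp (l i * s) * ⟪v i, x - c⟫) • v i

/-- **A.** The extension inequality holds on average over the flow, for every `q > 3`, with respect
to every measure on `[0, 1]` of dimension `α > (4 - q) / (q - 2)`. -/
def Averages : Prop := ∀ q : ℝ, 3 < q → ∀ (v : OrthonormalBasis (Fin 2) ℝ (E 2)) (c : E 2)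
    (l : Fin 2 → ℝ), l 0 ≠ l 1 → ∀ α K : ℝ, 0 < α → 4 - q < α * (q - 2) → 0 < K →
    ∃ C : ℝ≥0, ∀ μ : Measure ℝ, μ univ ≤ 1 → μ (Icc 0 1)ᶜ = 0 →
    (∀ x r, 0 < r → μ (Icc x (x + r)) ≤ ENNReal.ofReal (K * r ^ α)) →
    ∀ (U : Set (E 2)) (f : E 2 → ℂ), MeasurableSet U → U ⊆ ball 0 (1 / 2) → Measurable f →
    eLpNorm f (ENNReal.ofReal q) (volume.restrict U) ≠ ∞ →
    ∫⁻ s, eLpNorm (ext (flow v c l s ⁻¹' U) (f ∘ flow v c l s)) (ENNReal.ofReal q) volume ^ q ∂μ ≤
      C * eLpNorm f (ENNReal.ofReal q) (volume.restrict U) ^ q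

/-- **B.** For every `f ∈ L^q(U)` the set of exceptional times has dimension at most
`(4 - q) / (q - 2)`. -/
def ExceptionalTimes : Prop := ∀ q : ℝ, 3 < q → q ≤ 4 →
    ∀ (v : OrthonormalBasis (Fin 2) ℝ (E 2)) (c : E 2) (l : Fin 2 → ℝ), l 0 ≠ l 1 →
    ∀ (U : Set (E 2)) (f : E 2 → ℂ), MeasurableSet U → U ⊆ ball 0 (1 / 2) → Measurable f →
    eLpNorm f (ENNReal.ofReal q) (volume.restrict U) ≠ ∞ →
    dimH {s : ℝ | eLpNorm (ext (flow v c l s ⁻¹' U) (f ∘ flow v c l s)) (ENNReal.ofReal q)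
      volume = ∞} ≤ ENNReal.ofReal ((4 - q) / (q - 2))

/-- **C.** The extension inequality for all `f` with regularity of order `σ > 2/q - 1/2` along the
orbits of the flow. -/
def RegularAlongFlow : Prop := ∀ q σ : ℝ, 3 < q → 0 < σ → 2 / q - 1 / 2 < σ →
    ∀ (v : OrthonormalBasis (Fin 2) ℝ (E 2)) (c : E 2) (l : Fin 2 → ℝ), l 0 ≠ l 1 →
    ∃ C : ℝ≥0, ∀ (U : Set (E 2)) (f : E 2 → ℂ) (K : ℝ), MeasurableSet U → U ⊆ ball 0 (1 / 2) →
    Measurable f → eLpNorm f (ENNReal.ofReal q) (volume.restrict U) ≠ ∞ → 0 ≤ K →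
    (∀ s ∈ Icc (0 : ℝ) 1, eLpNorm (fun x => U.indicator f (flow v c l s x) - U.indicator f x)
      (ENNReal.ofReal q) volume ≤ ENNReal.ofReal (K * s ^ σ)) →
    eLpNorm (ext U f) (ENNReal.ofReal q) volume ≤
      C * (eLpNorm f (ENNReal.ofReal q) (volume.restrict U) + ENNReal.ofReal K)

/-- **D.** The extension inequality for all `f` with regularity of order `σ > 2/q - 1/2` in one
direction `e`, with a constant independent of `e`. -/
def RegularInOneDirection : Prop := ∀ q σ : ℝ, 3 < q → 0 < σ → 2 / q - 1 / 2 < σ →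
    ∃ C : ℝ≥0, ∀ e : E 2, ‖e‖ = 1 → ∀ (U : Set (E 2)) (f : E 2 → ℂ) (K : ℝ), MeasurableSet U →
    U ⊆ ball 0 (1 / 2) →
    Measurable f → eLpNorm f (ENNReal.ofReal q) (volume.restrict U) ≠ ∞ → 0 ≤ K →
    (∀ τ : ℝ, 0 ≤ τ → eLpNorm (fun x => U.indicator f (x + τ • e) - U.indicator f x)
      (ENNReal.ofReal q) volume ≤ ENNReal.ofReal (K * τ ^ σ)) →
    eLpNorm (ext U f) (ENNReal.ofReal q) volume ≤
      C * (eLpNorm f (ENNReal.ofReal q) (volume.restrict U) + ENNReal.ofReal K)

/-- **Theorem.** All four statements hold. -/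
theorem result : Averages ∧ ExceptionalTimes ∧ RegularAlongFlow ∧ RegularInOneDirection := by
  refine ⟨?_, ?_, ?_, ?_⟩
  · intro q hq v c l hl α K hα hqα hK
    exact Pool.Agent.K4H66.DF.finA q α K hq hα hqα hK v c l hl
  · intro q hq hq4 v c l hl U f hU hUb hf hft
    exact Pool.Agent.K4H66.DF.finB q hq hq4 v c l hl U f hU hUb hf hft
  · intro q σ hq hσ hσ1 v c l hl
    exact Pool.Agent.K4H66.DF.finC q σ hq hσ hσ1 v c l hl
  · intro q σ hq hσ hσ1
    exact Pool.Agent.K4H66.DF.finD q σ hq hσ hσ1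

end Pool.Agent.Results.MP_5ab805_an.DilationFlows
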