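import Mathlib
import Pool.Agent.K4H46.MO.Sh3
set_option autoImplicit false

/-!
# The extension conjecture for the paraboloid in `ℝ³` with Morrey norms in space

`ext U f ξ = ∫_U e^{-i Φ(x)·ξ} f(x) dx`, `Φ(x) = (x_1, x_2, x_1² + x_2²)`, `U ⊆ B(0, 1/2)`; we write
`ξ = (x, t)` with `x ∈ ℝ²`, `t ∈ ℝ`. The question asks for
`‖Ef‖_{L^q_t L^q_x} ≤ C ‖f‖_{L^3}` for every `q > 3`.

We prove this estimate, in the full range `q > 3`, with the `L^q` norm of each horizontal slice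
replaced by the Morrey norm with the same scaling: the supremum over all axis-parallel rectangles
`R ⊆ ℝ²`, which may be chosen depending on the time `t`, of `|R|^{1/q - 1/2} ‖Ef(·, t)‖_{L²(R)}`.
An equivalent form: the weighted estimate `∫ |Ef|² W ≤ C ‖W‖_{L^{(q/2)'}} ‖f‖_3²`, which for all
`W` is the same as the estimate asked for, holds for every weight `W` each of whose slices
`W(·, t)` is nonincreasing away from a point `(c₁ t, c₂ t)` in both coordinate directions; the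
points may move in an arbitrary (measurable) way with `t`, and the slices need not be related to
each other. At the critical exponent we have the estimate for rectangles of fixed size with
an `ε` loss, and both the range `q > 3` and the power `1/3` are sharp.
-/

namespace Pool.Agent.Results.MP_5ab805_an.MorreySlices

open MeasureTheory Set Metric Complex
open scoped ENNReal NNReal RealInnerProductSpace

abbrev E (n : ℕ) := EuclideanSpace ℝ (Fin n)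

/-- the paraboloid `x ↦ (x_1, x_2, x_1^2 + x_2^2)` -/
noncomputable def Phi (x : E 2) : E 3 := !₂[x 0, x 1, x 0 ^ 2 + x 1 ^ 2]

/-- the Fourier extension operator of the paraboloid over `U` -/
noncomputable def ext (U : Set (E 2)) (f : E 2 → ℂ) (ξ : E 3) : ℂ :=
  ∫ x in U, Complex.exp (-((⟪Phi x, ξ⟫ : ℝ) : ℂ) * I) * f x

/-- the point `(x, t)` of `ℝ² × ℝ` -/
noncomputable def point (x : E 2) (t : ℝ) : E 3 := !₂[x 0, x 1, t]

/-- the open rectangle with the centre `c` and the half side lengths `r₁`, `r₂` -/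
def rectangle (c : E 2) (r₁ r₂ : ℝ) : Set (E 2) := {x | |x 0 - c 0| < r₁ ∧ |x 1 - c 1| < r₂}

/-- the norm of the Morrey space with the scaling of `L^q(ℝ²)`: the supremum over all rectangles
`R` of `|R|^{1/q} (|R|^{-1} ∫_R |g|²)^{1/2}` -/
noncomputable def morreyNorm (q : ℝ) (g : E 2 → ℂ) : ℝ≥0∞ :=
  ⨆ (c : E 2) (r₁ : ℝ) (r₂ : ℝ) (_ : 0 < r₁) (_ : 0 < r₂),
    volume (rectangle c r₁ r₂) ^ (1 / q - 1 / 2) *
      (∫⁻ x in rectangle c r₁ r₂, ‖g x‖ₑ ^ 2) ^ (1 / 2 : ℝ)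

/-- each horizontal slice of the weight `W` is nonincreasing away from the point
`(c₁ t, c₂ t)`, in both coordinate directions -/
def SlicesDecreaseFrom (W : E 3 → ℝ≥0∞) (c₁ c₂ : ℝ → ℝ) : Prop :=
  ∀ (t : ℝ) (x y : E 2), x 0 ∈ uIcc (c₁ t) (y 0) → x 1 ∈ uIcc (c₂ t) (y 1) →
    W (point y t) ≤ W (point x t)

/-- (1) the extension estimate with Morrey norms in space -/
def MorreyEstimate (q : ℝ) : Prop := ∃ C : ℝ≥0, ∀ (U : Set (E 2)) (f : E 2 → ℂ),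
  U ⊆ ball 0 (1 / 2) → MemLp f 3 (volume.restrict U) →
  (∫⁻ t : ℝ, morreyNorm q (fun x => ext U f (point x t)) ^ q) ^ (1 / q) ≤
    C * eLpNorm f 3 (volume.restrict U)

/-- (2) the weighted form, for weights with unimodal slices -/
def UnimodalWeights (q : ℝ) : Prop := ∃ C : ℝ≥0, ∀ (U : Set (E 2)) (f : E 2 → ℂ)
  (W : E 3 → ℝ≥0∞) (c₁ c₂ : ℝ → ℝ), U ⊆ ball 0 (1 / 2) → MemLp f 3 (volume.restrict U) →
  Measurable W → Measurable c₁ → Measurable c₂ → SlicesDecreaseFrom W c₁ c₂ →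
  ∫⁻ ξ, W ξ * ‖ext U f ξ‖ₑ ^ 2 ≤
    C * (∫⁻ ξ, W ξ ^ (q / (q - 2))) ^ ((q - 2) / q) * eLpNorm f 3 (volume.restrict U) ^ 2

/-- (3) the estimate at the critical exponent, for moving rectangles of fixed size -/
def CriticalEstimate (ε : ℝ) : Prop := ∃ C : ℝ≥0, ∀ (U : Set (E 2)) (f : E 2 → ℂ)
  (w : ℝ → ℝ≥0∞) (c : ℝ → E 2) (r₁ r₂ : ℝ), U ⊆ ball 0 (1 / 2) →
  MemLp f 3 (volume.restrict U) → Measurable w → Measurable c → 1 ≤ r₁ → 1 ≤ r₂ →
  ∫⁻ t : ℝ, w t * ∫⁻ x in rectangle (c t) r₁ r₂, ‖ext U f (point x t)‖ₑ ^ 2 ≤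
    C * ENNReal.ofReal ((r₁ * r₂) ^ (1 / 3 + ε)) * (∫⁻ t : ℝ, w t ^ 3) ^ (1 / 3 : ℝ) *
      eLpNorm f 3 (volume.restrict U) ^ 2

/-- (4) one bounded function which shows that the range of `q` in (1) and the power `1/3`
in (3) are sharp -/
def Sharp (U : Set (E 2)) : Prop := ∃ f : E 2 → ℂ, Measurable f ∧ (∀ x, ‖f x‖ ≤ 1) ∧
  (∀ q : ℝ, 0 < q → q ≤ 3 →
    ∫⁻ t : ℝ, morreyNorm q (fun x => ext U f (point x t)) ^ q = ∞) ∧
  (∀ κ : ℝ, κ < 1 / 3 → ∀ C : ℝ≥0, ∃ r : ℝ, 1 ≤ r ∧ ∃ w : ℝ → ℝ≥0∞, Measurable w ∧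
    C * ENNReal.ofReal ((r * r) ^ κ) * (∫⁻ t : ℝ, w t ^ 3) ^ (1 / 3 : ℝ) <
      ∫⁻ t : ℝ, w t * ∫⁻ x in rectangle 0 r r, ‖ext U f (point x t)‖ₑ ^ 2)

theorem rect_eq (a : ℝ × ℝ) (c : E 2) (r₁ r₂ : ℝ) :
    K4H46.MO.TE a ∈ rectangle c r₁ r₂ ↔ a ∈ K4H46.MO.Rect (c 0, c 1) r₁ r₂ := by
  have h0 : K4H46.MO.TE a ∈ rectangle c r₁ r₂ ↔ (|a.1 - c 0| < r₁ ∧ |a.2 - c 1| < r₂) := Iff.rfl
  rw [h0]
  simp only [K4H46.MO.Rect, mem_prod, mem_Ioo, abs_lt]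
  constructor
  · rintro ⟨⟨h1, h2⟩, ⟨h3, h4⟩⟩
    refine ⟨⟨?_, ?_⟩, ⟨?_, ?_⟩⟩ <;> linarith
  · rintro ⟨⟨h1, h2⟩, ⟨h3, h4⟩⟩
    refine ⟨⟨?_, ?_⟩, ⟨?_, ?_⟩⟩ <;> linarith

theorem rect_meas (c : E 2) (r₁ r₂ : ℝ) : MeasurableSet (rectangle c r₁ r₂) := by
  have h0 : Continuous fun x : E 2 => |x 0 - c 0| := by fun_prop
  have h1 : Continuous fun x : E 2 => |x 1 - c 1| := by fun_prop
  exact ((isOpen_lt h0 continuous_const).inter (isOpen_lt h1 continuous_const)).measurableSet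

theorem rect_lint (c : E 2) (r₁ r₂ : ℝ) (h : E 2 → ℝ≥0∞) :
    ∫⁻ x in rectangle c r₁ r₂, h x =
      ∫⁻ a in K4H46.MO.Rect (c 0, c 1) r₁ r₂, h (K4H46.MO.TE a) := by
  have hmR : MeasurableSet (K4H46.MO.Rect (c 0, c 1) r₁ r₂) :=
    measurableSet_Ioo.prod measurableSet_Ioo
  rw [← lintegral_indicator (rect_meas c r₁ r₂), K4H46.MO.TE_lint, ← lintegral_indicator hmR]
  refine lintegral_congr fun a => ?_
  by_cases ha : a ∈ K4H46.MO.Rect (c 0, c 1) r₁ r₂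
  · rw [indicator_of_mem ha, indicator_of_mem ((rect_eq a c r₁ r₂).2 ha)]
  · rw [indicator_of_notMem ha, indicator_of_notMem (fun h => ha ((rect_eq a c r₁ r₂).1 h))]

theorem rect_vol (c : E 2) {r₁ : ℝ} (r₂ : ℝ) (h₁ : 0 < r₁) :
    volume (rectangle c r₁ r₂) = ENNReal.ofReal (4 * r₁ * r₂) := by
  rw [← setLIntegral_one, rect_lint, setLIntegral_one]
  unfold K4H46.MO.Rect
  rw [Measure.volume_eq_prod, Measure.prod_prod, Real.volume_Ioo, Real.volume_Ioo,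
    ← ENNReal.ofReal_mul (by linarith)]
  congr 1
  ring

/-- a rectangle inside `U` -/
theorem sharp_aux (U : Set (E 2)) (hU : U ⊆ ball 0 (1 / 2)) (hUi : (interior U).Nonempty) :
    ∃ (a : ℝ × ℝ) (δ : ℝ), 0 < δ ∧ (∀ x : E 2, (x 0, x 1) ∈ K4H46.MO.Rect a δ δ → x ∈ U) ∧
      (∀ ξ ∈ K4H46.MO.Rect a δ δ, |ξ.1| ≤ 1 / 2 ∧ |ξ.2| ≤ 1 / 2) := by
  obtain ⟨b, hb⟩ := hUi
  obtain ⟨r, hr, hbr⟩ := Metric.isOpen_iff.1 isOpen_interior b hb
  set a : ℝ × ℝ := (b 0, b 1) with ha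
  set δ : ℝ := r / 2 with hδ
  have hδ0 : 0 < δ := by positivity
  have hR : ∀ x : E 2, (x 0, x 1) ∈ K4H46.MO.Rect a δ δ → x ∈ U := by
    rintro x ⟨⟨h1, h2⟩, ⟨h3, h4⟩⟩
    apply interior_subset
    apply hbr
    rw [Metric.mem_ball, EuclideanSpace.dist_eq, Fin.sum_univ_two, Real.sqrt_lt' hr]
    simp only [ha] at h1 h2 h3 h4
    have e1 : dist (x 0) (b 0) ^ 2 < δ ^ 2 := by
      rw [Real.dist_eq, sq_abs]
      apply sq_lt_sq'
      · linarith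
      · linarith
    have e2 : dist (x 1) (b 1) ^ 2 < δ ^ 2 := by
      rw [Real.dist_eq, sq_abs]
      apply sq_lt_sq'
      · linarith
      · linarith
    have e3 : δ ^ 2 + δ ^ 2 ≤ r ^ 2 := by
      rw [hδ]; nlinarith
    linarith
  refine ⟨a, δ, hδ0, hR, ?_⟩
  intro ξ hξ
  have h1 : K4H46.MO.TE ξ ∈ ball (0 : E 2) (1 / 2) := hU (hR (K4H46.MO.TE ξ) hξ)
  rw [mem_ball_zero_iff, EuclideanSpace.norm_eq, Fin.sum_univ_two] at h1
  have h3 : ξ.1 ^ 2 + ξ.2 ^ 2 < (1 / 2) ^ 2 := by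
    have h4 := (Real.sqrt_lt' (by norm_num : (0 : ℝ) < 1 / 2)).1 h1
    simpa [K4H46.MO.TE_apply] using h4
  constructor
  · refine abs_le_of_sq_le_sq ?_ (by norm_num)
    nlinarith [sq_nonneg ξ.2]
  · refine abs_le_of_sq_le_sq ?_ (by norm_num)
    nlinarith [sq_nonneg ξ.1]

theorem partA (q : ℝ) (hq : 3 < q) : MorreyEstimate q := by
  set s : ℝ := q / (q - 2) with hs
  have hq2 : 0 < q - 2 := by linarith
  have hs1 : 1 < s := by rw [hs, lt_div_iff₀ hq2]; linarith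
  have hs3 : s < 3 := by rw [hs, div_lt_iff₀ hq2]; linarith
  have hσ : s / (s - 1) = q / 2 := by
    rw [hs, div_sub_one hq2.ne']
    field_simp
    ring
  have hs' : 1 / s = 1 - 2 / q := by
    rw [hs]
    field_simp
  obtain ⟨C, hC, h⟩ := K4H46.MO.morrey hs1 hs3
  refine ⟨(C ^ (1 / 2 : ℝ)).toNNReal, fun U f hU hf => ?_⟩
  rw [ENNReal.coe_toNNReal (ENNReal.rpow_ne_top_of_nonneg (by norm_num) hC)]
  obtain ⟨F, hF, hFe, hFN⟩ := K4H46.MO.rep3 hU hf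
  obtain ⟨Ψ, hΨm, hΨ, hΨle⟩ := h F hF
  rw [hFN] at hΨ
  rw [hσ] at hΨ
  have key : ∀ t, morreyNorm q (fun x => ext U f (point x t)) ≤ Ψ t ^ (1 / 2 : ℝ) := by
    intro t
    unfold morreyNorm
    refine iSup_le fun c => iSup_le fun r₁ => iSup_le fun r₂ => iSup_le fun h₁ =>
      iSup_le fun h₂ => ?_
    have h5 := hΨle t (c 0, c 1) r₁ r₂ h₁ h₂
    rw [rect_vol c r₂ h₁, rect_lint]
    have h6 : ∀ a, ‖ext U f (point (K4H46.MO.TE a) t)‖ₑ ^ 2 = ‖K4H46.MO.ex F a t‖ₑ ^ 2 := by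
      intro a
      have h7 := hFe (point (K4H46.MO.TE a) t)
      have h8 : ext U f (point (K4H46.MO.TE a) t) = K4H46.MO.ex F a t := h7
      rw [h8]
    simp_rw [h6]
    have h9 := ENNReal.rpow_le_rpow h5 (z := 1 / 2) (by norm_num)
    rw [ENNReal.mul_rpow_of_nonneg _ _ (by norm_num), ← ENNReal.rpow_mul] at h9
    have h10 : -(1 / s) * (1 / 2) = 1 / q - 1 / 2 := by
      rw [hs']; ring
    rw [h10] at h9
    exact h9
  calc (∫⁻ t : ℝ, morreyNorm q (fun x => ext U f (point x t)) ^ q) ^ (1 / q)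
      ≤ (∫⁻ t : ℝ, Ψ t ^ (q / 2)) ^ (1 / q) := by
        refine ENNReal.rpow_le_rpow (lintegral_mono fun t => ?_) (by positivity)
        refine (ENNReal.rpow_le_rpow (key t) (by linarith)).trans (le_of_eq ?_)
        rw [← ENNReal.rpow_mul]
        congr 1
        ring
    _ ≤ ((C * eLpNorm f 3 (volume.restrict U) ^ 2) ^ (q / 2)) ^ (1 / q) :=
        ENNReal.rpow_le_rpow hΨ (by positivity)
    _ = C ^ (1 / 2 : ℝ) * eLpNorm f 3 (volume.restrict U) := by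
        rw [← ENNReal.rpow_mul]
        have : q / 2 * (1 / q) = 1 / 2 := by field_simp
        rw [this, ENNReal.mul_rpow_of_nonneg _ _ (by norm_num), ← ENNReal.rpow_natCast,
          ← ENNReal.rpow_mul]
        norm_num

theorem partB (q : ℝ) (hq : 3 < q) : UnimodalWeights q := by
  set s : ℝ := q / (q - 2) with hs
  have hq2 : 0 < q - 2 := by linarith
  have hs1 : 1 < s := by rw [hs, lt_div_iff₀ hq2]; linarith
  have hs3 : s < 3 := by rw [hs, div_lt_iff₀ hq2]; linarith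
  have hs' : 1 / s = (q - 2) / q := by rw [hs, one_div_div]
  obtain ⟨C, hC, h⟩ := K4H46.MO.uni hs1 hs3
  refine ⟨C.toNNReal, fun U f W c₁ c₂ hU hf hW h₁ h₂ hWd => ?_⟩
  rw [ENNReal.coe_toNNReal hC]
  obtain ⟨F, hF, hFe, hFN⟩ := K4H46.MO.rep3 hU hf
  have hpm : Measurable fun p : (ℝ × ℝ) × ℝ => point (K4H46.MO.TE p.1) p.2 :=
    K4H46.MO.pt3_meas.comp ((K4H46.MO.TE.measurable.comp measurable_fst).prodMk measurable_snd)
  have h5 := h F hF (fun a t => W (point (K4H46.MO.TE a) t)) (fun t => (c₁ t, c₂ t))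
    (hW.comp hpm) (h₁.prodMk h₂) (fun t x y hx hy => hWd t _ _ hx hy)
  have hem : Measurable fun ξ => ext U f ξ := by
    have e1 : (fun ξ => ext U f ξ) = fun ξ : E 3 => K4H46.MO.ex F (ξ 0, ξ 1) (ξ 2) := by
      funext ξ
      exact hFe ξ
    rw [e1]
    have m0 : Measurable fun ξ : E 3 => ((ξ 0, ξ 1), ξ 2) := by fun_prop
    exact (K4H46.MO.ex_meas hF.meas).comp m0
  have e1 : ∫⁻ ξ, W ξ * ‖ext U f ξ‖ₑ ^ 2 = ∫⁻ t : ℝ, ∫⁻ a : ℝ × ℝ,
      W (point (K4H46.MO.TE a) t) * ‖K4H46.MO.ex F a t‖ₑ ^ 2 := by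
    have hWe : Measurable fun ξ => W ξ * ‖ext U f ξ‖ₑ ^ 2 := hW.mul (hem.enorm.pow_const 2)
    rw [K4H46.MO.E3_lint hWe]
    refine lintegral_congr fun t => lintegral_congr fun a => ?_
    have h8 : ext U f (K4H46.MO.pt3 (K4H46.MO.TE a) t) = K4H46.MO.ex F a t :=
      hFe (K4H46.MO.pt3 (K4H46.MO.TE a) t)
    rw [h8]
    rfl
  have e2 : ∫⁻ ξ, W ξ ^ s = ∫⁻ t : ℝ, ∫⁻ a : ℝ × ℝ, W (point (K4H46.MO.TE a) t) ^ s := by
    rw [K4H46.MO.E3_lint (hW.pow_const s)]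
    rfl
  rw [e1, e2, ← hs', ← hFN]
  refine h5.trans (le_of_eq ?_)
  ring

theorem partC (ε : ℝ) (hε : 0 < ε) : CriticalEstimate ε := by
  set θ : ℝ := min 1 (3 * ε) with hθ
  have hθ0 : 0 < θ := lt_min one_pos (by positivity)
  have hθ1 : θ ≤ 1 := min_le_left _ _
  have hθε : θ ≤ 3 * ε := min_le_right _ _
  obtain ⟨C, hC, h⟩ := K4H46.MO.rect hθ0 hθ1
  refine ⟨C.toNNReal, fun U f w c r₁ r₂ hU hf hw hc h₁ h₂ => ?_⟩
  rw [ENNReal.coe_toNNReal hC]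
  obtain ⟨F, hF, hFe, hFN⟩ := K4H46.MO.rep3 hU hf
  have hcm : Measurable fun t => ((c t) 0, (c t) 1) := by
    have m0 : Measurable fun x : E 2 => (x 0, x 1) := by fun_prop
    exact m0.comp hc
  have h5 := h F hF r₁ r₂ (by linarith) (by linarith) 3 (by norm_num) le_rfl w
    (fun t => ((c t) 0, (c t) 1)) hw hcm
  have e1 : ∀ t, ∫⁻ x in rectangle (c t) r₁ r₂, ‖ext U f (point x t)‖ₑ ^ 2 =
      ∫⁻ a in K4H46.MO.Rect ((c t) 0, (c t) 1) r₁ r₂, ‖K4H46.MO.ex F a t‖ₑ ^ 2 := by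
    intro t
    rw [rect_lint]
    have h6 : ∀ a, ‖ext U f (point (K4H46.MO.TE a) t)‖ₑ ^ 2 = ‖K4H46.MO.ex F a t‖ₑ ^ 2 := by
      intro a
      have h8 : ext U f (point (K4H46.MO.TE a) t) = K4H46.MO.ex F a t :=
        hFe (point (K4H46.MO.TE a) t)
      rw [h8]
    simp_rw [h6]
  simp_rw [e1]
  refine h5.trans ?_
  rw [hFN]
  have h7 : K4H46.MO.mm θ r₁ * K4H46.MO.mm θ r₂ ≤ (r₁ * r₂) ^ (1 / 3 + ε) := by
    unfold K4H46.MO.mm
    rw [min_eq_left h₁, min_eq_left h₂, max_eq_right h₁, max_eq_right h₂, one_mul, one_mul,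
      ← Real.mul_rpow (by linarith) (by linarith)]
    refine Real.rpow_le_rpow_of_exponent_le ?_ (by linarith)
    nlinarith
  have e3 : ∀ t, w t ^ (3 : ℝ) = w t ^ 3 := fun t => by
    rw [← ENNReal.rpow_natCast]; norm_num
  simp_rw [e3]
  calc C * ENNReal.ofReal (K4H46.MO.mm θ r₁ * K4H46.MO.mm θ r₂) *
      eLpNorm f 3 (volume.restrict U) ^ 2 * (∫⁻ t, w t ^ 3) ^ (1 / 3 : ℝ)
      ≤ C * ENNReal.ofReal ((r₁ * r₂) ^ (1 / 3 + ε)) *
      eLpNorm f 3 (volume.restrict U) ^ 2 * (∫⁻ t, w t ^ 3) ^ (1 / 3 : ℝ) := by gcongr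
    _ = _ := by ring

theorem partD (U : Set (E 2)) (hU : U ⊆ ball 0 (1 / 2)) (hUi : (interior U).Nonempty) :
    Sharp U := by
  obtain ⟨a, δ, hδ0, hR, ha2⟩ := sharp_aux U hU hUi
  have h6 : ∀ y t, ext U (fun x => K4H46.MO.f0 a δ (x 0, x 1)) (point (K4H46.MO.TE y) t) =
      K4H46.MO.ex (K4H46.MO.f0 a δ) y t := fun y t => K4H46.MO.ext_f0 hR _
  refine ⟨fun x => K4H46.MO.f0 a δ (x 0, x 1), ?_, ?_, ?_, ?_⟩
  · have h1 : Measurable (K4H46.MO.f0 a δ) :=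
      measurable_const.indicator (K4H46.MO.rect_measb _ _ _)
    have h2 : Measurable fun x : E 2 => (x 0, x 1) := by fun_prop
    exact h1.comp h2
  · intro x
    show ‖K4H46.MO.f0 a δ (x 0, x 1)‖ ≤ 1
    unfold K4H46.MO.f0
    by_cases h : (x 0, x 1) ∈ K4H46.MO.Rect a δ δ
    · rw [indicator_of_mem h]; simp
    · rw [indicator_of_notMem h]; simp
  · intro q hq0 hq
    refine K4H46.MO.sharp_int hδ0 ha2 hq0 hq fun t ht => ?_
    unfold morreyNorm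
    refine le_iSup_of_le 0 (le_iSup_of_le (64 * t) (le_iSup_of_le (64 * t)
      (le_iSup_of_le (by positivity) (le_iSup_of_le (by positivity) ?_))))
    rw [rect_vol _ _ (by positivity), rect_lint]
    simp_rw [h6]
    exact le_rfl
  · intro κ hκ C
    obtain ⟨r, hr, w, hw, h⟩ := K4H46.MO.sharp_rect hδ0 ha2 hκ C
    refine ⟨r, hr, w, hw, h.trans_le (le_of_eq ?_)⟩
    refine lintegral_congr fun t => ?_
    rw [rect_lint]
    simp_rw [h6]
    rfl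

/-- **The theorem.** (1) The estimate with Morrey norms in space, for all `q > 3`. (2) Its dual
form, for weights with unimodal slices. (3) The estimate at the critical exponent. (4) The range
`q > 3` in (1) and the power `1/3` in (3) are sharp, also for bounded `f`. -/
theorem result : (∀ q : ℝ, 3 < q → MorreyEstimate q) ∧ (∀ q : ℝ, 3 < q → UnimodalWeights q) ∧
    (∀ ε : ℝ, 0 < ε → CriticalEstimate ε) ∧
    (∀ U : Set (E 2), U ⊆ ball 0 (1 / 2) → (interior U).Nonempty → Sharp U) :=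
  ⟨partA, partB, partC, partD⟩

end Pool.Agent.Results.MP_5ab805_an.MorreySlices
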