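import Mathlib
import Pool.Agent.K4H46.OW.BLK
import Pool.Agent.K4H46.OW.Box
set_option autoImplicit false

/-!
# The extension conjecture for the paraboloid in `ℝ³`: weights with covered level sets

`ext U f ξ = ∫_U e^{-i Φ(x)·ξ} f(x) dx`, `Φ(x) = (x_1, x_2, x_1² + x_2²)`, `U ⊆ B(0, 1/2)`.
By duality the conjecture for the exponent `q > 3` says that

`∫ |ext U f|² W ≤ C ‖W‖_{L^{q/(q-2)}(ℝ³)} ‖f‖_{L^q(U)}²` for all weights `W ≥ 0`.

We prove this inequality, for every `q > 3`, for all weights whose superlevel sets `X` can be covered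
by countably many sets `P_i` with `∑ |P_i|^{1/3} ≤ K (1 + |X|)^θ`, `θ < 1 - 2/q`, where each `P_i` is
convex or nested: in some linear coordinates `y ∈ ℝ²`, `s ∈ ℝ` (which may depend on `P_i`) its
sections `{s : (y, s) ∈ P_i}`, `y ∈ ℝ²`, are linearly ordered by inclusion. In particular (`θ = 1/3`)
this holds for all products `W(y, s) = u(y) w(s)` in all linear coordinate systems, for all weights
which are monotone in one linear direction, for all weights with nested sections and for all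
quasi-concave weights (all superlevel sets are convex).

The box lemma `box_of_convex` is due to helper41.
-/

namespace Pool.Agent.Results.MP_5ab805_an.NestedCovers

open MeasureTheory Set Metric Complex
open scoped ENNReal NNReal RealInnerProductSpace

abbrev E (n : ℕ) := EuclideanSpace ℝ (Fin n)

/-- the paraboloid `x ↦ (x_1, x_2, x_1^2 + x_2^2)` -/
noncomputable def Phi (x : E 2) : E 3 := !₂[x 0, x 1, x 0 ^ 2 + x 1 ^ 2]

/-- the Fourier extension operator of the paraboloid over `U` -/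
noncomputable def ext (U : Set (E 2)) (f : E 2 → ℂ) (ξ : E 3) : ℂ :=
  ∫ x in U, Complex.exp (-((⟪Phi x, ξ⟫ : ℝ) : ℂ) * I) * f x

/-- `P` is nested: in some linear coordinates `y = (⟨v_0, ξ⟩, ⟨v_1, ξ⟩)`, `s = ⟨v_2, ξ⟩` of `ℝ³` it is
a measurable set `Q` of points `(y, s)` whose sections `{s : (y, s) ∈ Q}` are linearly ordered by
inclusion -/
def Nested (P : Set (E 3)) : Prop :=
  ∃ (v : Fin 3 → E 3) (Q : Set ((ℝ × ℝ) × ℝ)), LinearIndependent ℝ v ∧ MeasurableSet Q ∧
    (∀ y y' s s', (y, s) ∈ Q → (y', s') ∈ Q → (y, s') ∈ Q ∨ (y', s) ∈ Q) ∧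
    P = {ξ | (((⟪v 0, ξ⟫ : ℝ), (⟪v 1, ξ⟫ : ℝ)), (⟪v 2, ξ⟫ : ℝ)) ∈ Q}

/-- `X` is covered by countably many nested or convex sets `P_i` with
`∑ |P_i|^{1/3} ≤ K (1 + |X|)^θ` -/
def Covered (K θ : ℝ) (X : Set (E 3)) : Prop :=
  ∃ P : ℕ → Set (E 3), (∀ i, Nested (P i) ∨ Convex ℝ (P i)) ∧ X ⊆ ⋃ i, P i ∧
    ∑' i, volume (P i) ^ (1 / 3 : ℝ) ≤ ENNReal.ofReal K * (1 + volume X) ^ θ

/-- a nice representative of the function -/
theorem rep {q : ℝ} (hq : 3 < q) {U : Set (E 2)} (hU : U ⊆ ball 0 (1 / 2)) {f : E 2 → ℂ}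
    (hf : MemLp f (ENNReal.ofReal q) (volume.restrict U)) :
    ∃ F : E 2 → ℂ, K4H46.CW.Ok F ∧ (∀ ξ : E 3, ext U f ξ = K4H46.RX.EE F ξ) ∧
      K4H46.CW.Nq q F = eLpNorm f (ENNReal.ofReal q) (volume.restrict U) := by
  have hq0 : 0 < q := by linarith
  set V : Set (E 2) := ball 0 (1 / 2) ∩ toMeasurable volume U with hV
  have hVm : MeasurableSet V := isOpen_ball.measurableSet.inter (measurableSet_toMeasurable _ _)
  have hVb : V ⊆ ball 0 (1 / 2) := inter_subset_left
  have hUfin : (volume : Measure (E 2)) U ≠ ∞ :=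
    ne_top_of_le_ne_top (measure_ball_lt_top).ne (measure_mono hU)
  have hres : (volume : Measure (E 2)).restrict U = volume.restrict V := by
    rw [hV, ← Measure.restrict_restrict isOpen_ball.measurableSet,
      Measure.restrict_toMeasurable hUfin, Measure.restrict_restrict isOpen_ball.measurableSet,
      inter_eq_right.2 hU]
  have hVfin : IsFiniteMeasure ((volume : Measure (E 2)).restrict V) :=
    ⟨by rw [Measure.restrict_apply_univ]; exact lt_of_le_of_lt (measure_mono hVb)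
          measure_ball_lt_top⟩
  rw [hres] at hf ⊢
  set g : E 2 → ℂ := hf.1.mk f with hg
  have hgm : Measurable g := hf.1.stronglyMeasurable_mk.measurable
  have hgf : f =ᵐ[volume.restrict V] g := hf.1.ae_eq_mk
  set F : E 2 → ℂ := V.indicator g with hF
  have hFm : Measurable F := hgm.indicator hVm
  have hf1 : MemLp f 1 (volume.restrict V) := hf.mono_exponent (by
    rw [← ENNReal.ofReal_one]
    exact ENNReal.ofReal_le_ofReal (by linarith))
  have hFi : Integrable F := by
    rw [hF, integrable_indicator_iff hVm]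
    exact (memLp_one_iff_integrable.1 hf1).congr hgf
  refine ⟨F, ⟨hFm, hFi, fun x hx => indicator_of_notMem (fun h => hx (hVb h)) _⟩, ?_, ?_⟩
  · intro ξ
    unfold ext K4H46.RX.EE
    rw [hres, ← integral_indicator hVm]
    have h1 : ∫ x, V.indicator (fun x => Complex.exp (-((⟪Phi x, ξ⟫ : ℝ) : ℂ) * I) * f x) x =
        ∫ x, V.indicator (fun x => Complex.exp (-((⟪Phi x, ξ⟫ : ℝ) : ℂ) * I) * g x) x := by
      rw [integral_indicator hVm, integral_indicator hVm]
      refine integral_congr_ae ?_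
      filter_upwards [hgf] with x hx
      rw [hx]
    rw [h1]
    refine integral_congr_ae (Filter.Eventually.of_forall fun x => ?_)
    simp only [hF]
    by_cases hx : x ∈ V
    · rw [indicator_of_mem hx, indicator_of_mem hx]
      rfl
    · rw [indicator_of_notMem hx, indicator_of_notMem hx, mul_zero]
  · unfold K4H46.CW.Nq
    rw [eLpNorm_congr_ae hgf, eLpNorm_eq_lintegral_rpow_enorm_toReal (by simpa using hq0)
      ENNReal.ofReal_ne_top, ENNReal.toReal_ofReal hq0.le, ← lintegral_indicator hVm]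
    congr 1
    refine lintegral_congr fun x => ?_
    simp only [hF]
    by_cases hx : x ∈ V
    · rw [indicator_of_mem hx, indicator_of_mem hx]
    · rw [indicator_of_notMem hx, indicator_of_notMem hx, enorm_zero,
        ENNReal.zero_rpow_of_pos hq0]

/-- **The dual form of the extension conjecture for weights with covered level sets.** -/
theorem result : ∀ q θ K : ℝ, 3 < q → 0 ≤ θ → θ < 1 - 2 / q → ∃ C : ℝ≥0,
    ∀ (U : Set (E 2)) (f : E 2 → ℂ) (W : E 3 → ℝ≥0∞), U ⊆ ball 0 (1 / 2) →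
    MemLp f (ENNReal.ofReal q) (volume.restrict U) → Measurable W →
    (∀ c : ℝ≥0, 0 < c → Covered K θ {ξ | (c : ℝ≥0∞) < W ξ}) →
    ∫⁻ ξ, W ξ * ‖ext U f ξ‖ₑ ^ 2 ≤ C * (∫⁻ ξ, W ξ ^ (q / (q - 2))) ^ ((q - 2) / q) *
        eLpNorm f (ENNReal.ofReal q) (volume.restrict U) ^ 2 := by
  intro q θ K hq hθ0 hθ
  obtain ⟨C, hCt, hC⟩ := K4H46.OW.WTfin K4H46.OW.box_of_convex hq hθ0 hθ
    (ENNReal.ofReal_ne_top (r := K))
  refine ⟨C.toNNReal, ?_⟩
  rw [ENNReal.coe_toNNReal hCt]
  intro U f W hU hf hWm hW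
  obtain ⟨F, hFok, hFe, hFn⟩ := rep hq hU hf
  have hmain := hC W hWm (fun c hc0 hct _ => by
    obtain ⟨b, rfl⟩ : ∃ b : ℝ≥0, c = b := ⟨c.toNNReal, (ENNReal.coe_toNNReal hct).symm⟩
    exact hW b (pos_iff_ne_zero.2 (by simpa using hc0))) F hFok
  rw [hFn] at hmain
  simp_rw [hFe]
  exact hmain

end Pool.Agent.Results.MP_5ab805_an.NestedCovers
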